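import Pool.Agent.Q331.Vant.Defs

/-!
# The adversary
-/

open SimpleGraph

namespace Pool.Agent.Q331.Vant

variable {V : Type}

/-- The capacity of the edges first met at the `i`-th query. -/
noncomputable def tau (i : ℕ) : ℝ := (i + 1) / (i + 2)

theorem tau_pos (i : ℕ) : 0 < tau i := by unfold tau; positivity

theorem tau_lt_one (i : ℕ) : tau i < 1 := by
  unfold tau
  rw [div_lt_one (by positivity)]
  linarith

theorem tau_lt {i j : ℕ} (h : i < j) : tau i < tau j := by
  unfold tau
  rw [div_lt_div_iff₀ (by positivity) (by positivity)]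
  have : (i : ℝ) < j := by exact_mod_cast h
  nlinarith

theorem tau_le {i j : ℕ} (h : i ≤ j) : tau i ≤ tau j := by
  rcases h.lt_or_eq with h | rfl
  · exact (tau_lt h).le
  · exact le_rfl

open Classical in
/-- The capacities chosen by the adversary: edges at queried vertices are cheap. -/
noncomputable def cap (q : List V) (g : Sym2 V → ℝ) (e : Sym2 V) : ℝ :=
  if q.findIdx (fun v => decide (v ∈ e)) < q.length then tau (q.findIdx (fun v => decide (v ∈ e)))
  else g e

theorem cap_of_mem {q : List V} {v : V} (hv : v ∈ q) (g : Sym2 V → ℝ) {e : Sym2 V} (he : v ∈ e) :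
    ∃ i < q.length, cap q g e = tau i := by
  classical
  have h : q.findIdx (fun v => decide (v ∈ e)) < q.length :=
    List.findIdx_lt_length_of_exists ⟨v, hv, by simpa using he⟩
  unfold cap
  rw [if_pos (by convert h)]
  exact ⟨_, by convert h, rfl⟩

theorem cap_of_not_mem {q : List V} {e : Sym2 V} (h : ∀ v ∈ q, v ∉ e) (g : Sym2 V → ℝ) :
    cap q g e = g e := by
  classical
  unfold cap
  rw [if_neg]
  intro h1
  have h2 := List.findIdx_getElem (w := h1)
  exact h _ (List.getElem_mem h1) (by simpa using h2)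

theorem cap_pos (q : List V) {g : Sym2 V → ℝ} (hg : ∀ e, 0 < g e) (e : Sym2 V) :
    0 < cap q g e := by
  unfold cap
  split_ifs
  · exact tau_pos _
  · exact hg e

theorem cap_append (q1 q2 : List V) {g g' : Sym2 V → ℝ} (e : Sym2 V) :
    cap (q1 ++ q2) g e = cap q1 g' e ∨
      ((∀ v ∈ q1, v ∉ e) ∧ ((∃ i, q1.length ≤ i ∧ cap (q1 ++ q2) g e = tau i) ∨
        cap (q1 ++ q2) g e = g e)) := by
  classical
  by_cases h : ∃ v ∈ q1, v ∈ e
  · left
    obtain ⟨v, hv, he⟩ := h
    have h : q1.findIdx (fun v => decide (v ∈ e)) < q1.length :=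
      List.findIdx_lt_length_of_exists ⟨v, hv, by simpa using he⟩
    have h2 : (q1 ++ q2).findIdx (fun v => decide (v ∈ e)) =
        q1.findIdx (fun v => decide (v ∈ e)) := by
      rw [List.findIdx_append, if_pos h]
    unfold cap
    have h3 : (q1 ++ q2).findIdx (fun v => decide (v ∈ e)) < (q1 ++ q2).length := by
      rw [h2, List.length_append]; omega
    rw [if_pos (by convert h3), if_pos (by convert h)]
    congr 1
  · right
    push Not at h
    refine ⟨h, ?_⟩
    have h1 : ¬ q1.findIdx (fun v => decide (v ∈ e)) < q1.length := by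
      intro h1
      have h2 := List.findIdx_getElem (w := h1)
      exact h _ (List.getElem_mem h1) (by simpa using h2)
    have h2 : (q1 ++ q2).findIdx (fun v => decide (v ∈ e)) =
        q2.findIdx (fun v => decide (v ∈ e)) + q1.length := by
      rw [List.findIdx_append, if_neg h1]
    unfold cap
    split_ifs with h3
    · left
      refine ⟨_, ?_, rfl⟩
      have : q1.length ≤ (q1 ++ q2).findIdx (fun v => decide (v ∈ e)) := by rw [h2]; omega
      convert this
    · right; rfl

theorem cap_append_of_subset {q1 q2 : List V} (h : ∀ v ∈ q2, v ∈ q1) (g : Sym2 V → ℝ) :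
    cap (q1 ++ q2) g = cap q1 g := by
  funext e
  by_cases h1 : ∃ v ∈ q1, v ∈ e
  · rcases cap_append q1 q2 (g := g) (g' := g) e with h2 | ⟨h2, -⟩
    · exact h2
    · obtain ⟨v, hv, he⟩ := h1
      exact absurd he (h2 v hv)
  · push Not at h1
    rw [cap_of_not_mem h1, cap_of_not_mem]
    intro v hv
    rw [List.mem_append] at hv
    rcases hv with hv | hv
    · exact h1 v hv
    · exact h1 v (h v hv)

/-- `c` and `c'` agree below `θ`. -/
def Agree (θ : ℝ) (c c' : Sym2 V → ℝ) : Prop :=
  ∀ e, (c e < θ → c' e = c e) ∧ (c' e < θ → c e = c' e)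

theorem Agree.symm {θ : ℝ} {c c' : Sym2 V → ℝ} (h : Agree θ c c') : Agree θ c' c :=
  fun e => ⟨(h e).2, (h e).1⟩

theorem Agree.bottleneck {θ : ℝ} {c c' : Sym2 V → ℝ} (h : Agree θ c c') {G : SimpleGraph V}
    {s t : V} {w : G.Walk s t} {e₁ : Sym2 V} (he₁ : e₁ ∈ w.edges) (h₁ : c e₁ < θ) {e : Sym2 V}
    (hb : IsBottleneck c w e) : IsBottleneck c' w e ∧ c' e = c e := by
  have hce : c e < θ := by
    rcases eq_or_ne e₁ e with rfl | hne
    · exact h₁
    · exact (hb.2 e₁ he₁ hne).trans h₁
  have h2 := (h e).1 hce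
  refine ⟨⟨hb.1, fun e' he' hne => ?_⟩, h2⟩
  rw [h2]
  rcases lt_or_ge (c' e') θ with h3 | h3
  · rw [← (h e').2 h3]
    exact hb.2 e' he' hne
  · exact hce.trans_le h3

theorem agree_cap (q1 q2 : List V) {g g' : Sym2 V → ℝ} (hg : ∀ e, 1 ≤ g e) (hg' : ∀ e, 1 ≤ g' e) :
    Agree (tau q1.length) (cap (q1 ++ q2) g) (cap q1 g') := by
  intro e
  have hlt := tau_lt_one q1.length
  rcases cap_append q1 q2 (g := g) (g' := g') e with h | ⟨h, h2⟩
  · exact ⟨fun _ => h.symm, fun _ => h⟩
  · have h3 : cap q1 g' e = g' e := cap_of_not_mem h g'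
    constructor
    · intro h4
      exfalso
      rcases h2 with ⟨i, hi, h2⟩ | h2
      · rw [h2] at h4
        exact absurd (tau_le hi) (not_le.2 h4)
      · rw [h2] at h4
        have := hg e
        linarith
    · intro h4
      exfalso
      rw [h3] at h4
      have := hg' e
      linarith

/-- A walk with an edge has an edge at its first vertex. -/
theorem first_edge {G : SimpleGraph V} {s t : V} {w : G.Walk s t} {e : Sym2 V} (he : e ∈ w.edges) :
    ∃ e₁ ∈ w.edges, s ∈ e₁ := by
  cases w with
  | nil => simp at he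
  | @cons _ v _ h p => exact ⟨s(s, v), by simp, by simp⟩

theorem answer_subset (N : Network V) {θ : ℝ} {c c' : Sym2 V → ℝ} (h : Agree θ c c') {s : V}
    (hs : ∀ e, s ∈ e → c e < θ) (t : V) : answer N c s t ⊆ answer N c' s t := by
  rintro ⟨e, x⟩ ⟨w, h1, h2, h3⟩
  obtain ⟨e₁, he₁, hs₁⟩ := first_edge h2.1
  obtain ⟨h4, h5⟩ := h.bottleneck he₁ (hs e₁ hs₁) h2
  refine ⟨w, h1, h4, ?_⟩
  simp only at h3 h5 ⊢
  rw [h3, h5]

theorem answer_eq (N : Network V) (q1 q2 : List V) {g g' : Sym2 V → ℝ} (hg : ∀ e, 1 ≤ g e)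
    (hg' : ∀ e, 1 ≤ g' e) {s : V} (hs : s ∈ q1) :
    answer N (cap (q1 ++ q2) g) s = answer N (cap q1 g') s := by
  have h := agree_cap q1 q2 hg hg'
  have h2 : ∀ e, s ∈ e → cap q1 g' e < tau q1.length := by
    intro e he
    obtain ⟨i, hi, h3⟩ := cap_of_mem hs g' he
    rw [h3]
    exact tau_lt hi
  have h1 : ∀ e, s ∈ e → cap (q1 ++ q2) g e < tau q1.length := by
    intro e he
    rw [(h e).2 (h2 e he)]
    exact h2 e he
  funext t
  exact Set.Subset.antisymm (answer_subset N h h1 t) (answer_subset N h.symm h2 t)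

/-- The run of the algorithm against the adversary. -/
noncomputable def adv (N : Network V) (A : Algo V) : ℕ → List (V × (V → Set (Sym2 V × ℝ)))
  | 0 => []
  | j + 1 =>
    match A (adv N A j) with
    | none => adv N A j
    | some v => adv N A j ++ [(v, answer N (cap ((adv N A j).map Prod.fst ++ [v]) fun _ => 2) v)]

theorem adv_mono (N : Network V) (A : Algo V) {i j : ℕ} (h : i ≤ j) :
    ∃ l, adv N A j = adv N A i ++ l := by
  induction j, h using Nat.le_induction with
  | base => exact ⟨[], by simp⟩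
  | succ j _ ih =>
    obtain ⟨l, hl⟩ := ih
    rw [adv]
    split
    · exact ⟨l, hl⟩
    · rename_i v _
      exact ⟨l ++ [(v, _)], by rw [hl, List.append_assoc]⟩

theorem hist_eq_adv (N : Network V) (A : Algo V) {g : Sym2 V → ℝ} (hg : ∀ e, 1 ≤ g e) (J : ℕ) :
    ∀ j ≤ J, hist N A (cap ((adv N A J).map Prod.fst) g) j = adv N A j := by
  intro j
  induction j with
  | zero => intro _; rfl
  | succ j ih =>
    intro hj
    have ih' := ih (by omega)
    rw [hist, ih']
    cases hA : A (adv N A j) with
    | none =>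
      simp only
      rw [adv, hA]
    | some v =>
      simp only
      have h1 : adv N A (j + 1) =
          adv N A j ++ [(v, answer N (cap ((adv N A j).map Prod.fst ++ [v]) fun _ => 2) v)] := by
        rw [adv, hA]
      obtain ⟨l, hl⟩ := adv_mono N A hj
      rw [h1] at hl ⊢
      rw [hl]
      simp only [List.map_append, List.map_cons, List.map_nil]
      rw [answer_eq N _ _ hg (g' := fun _ => 2) (fun _ => by norm_num) (by simp)]

/-- If the algorithm stops for all capacities, it also stops against the adversary. -/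
theorem adv_stops [Fintype V] [DecidableEq V] (N : Network V) (A : Algo V)
    (h : ∀ c : Sym2 V → ℝ, (∀ e, 0 < c e) → ∃ S, EndsWith N A c S) : ∃ J, A (adv N A J) = none := by
  -- the set of queried vertices stabilizes
  obtain ⟨J, hJ⟩ : ∃ J, ∀ j, (((adv N A j).map Prod.fst).toFinset).card ≤
      (((adv N A J).map Prod.fst).toFinset).card := by
    have hfin : (Set.range fun j => (((adv N A j).map Prod.fst).toFinset).card).Finite :=
      (Set.finite_Iic (Fintype.card V)).subset (by
        rintro _ ⟨j, rfl⟩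
        exact Finset.card_le_univ _)
    obtain ⟨m, ⟨J, rfl⟩, hm⟩ := hfin.exists_maximal (Set.range_nonempty _)
    refine ⟨J, fun j => ?_⟩
    by_contra hcon
    push Not at hcon
    have := hm ⟨j, rfl⟩ hcon.le
    simp only at this
    omega
  have hsub : ∀ j, J ≤ j → ∀ v ∈ (adv N A j).map Prod.fst, v ∈ (adv N A J).map Prod.fst := by
    intro j hj v hv
    obtain ⟨l, hl⟩ := adv_mono N A hj
    have h1 : ((adv N A J).map Prod.fst).toFinset ⊆ ((adv N A j).map Prod.fst).toFinset := by
      intro x hx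
      rw [List.mem_toFinset] at hx ⊢
      rw [hl, List.map_append, List.mem_append]
      exact Or.inl hx
    have h2 := Finset.eq_of_subset_of_card_le h1 (hJ j)
    rw [← List.mem_toFinset, h2, List.mem_toFinset]
    exact hv
  have hcap : ∀ j, J ≤ j → cap ((adv N A j).map Prod.fst) (fun _ => 2) =
      cap ((adv N A J).map Prod.fst) fun _ => 2 := by
    intro j hj
    have h0 := hsub j hj
    obtain ⟨l, hl⟩ := adv_mono N A hj
    rw [hl, List.map_append] at h0 ⊢
    exact cap_append_of_subset (fun v hv => h0 v (List.mem_append_right _ hv)) _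
  obtain ⟨S, j, hj, -⟩ := h (cap ((adv N A J).map Prod.fst) fun _ => 2)
    (cap_pos _ fun _ => by norm_num)
  refine ⟨j, ?_⟩
  have h1 := hist_eq_adv N A (g := fun _ => 2) (fun _ => by norm_num) (max j J) j (le_max_left _ _)
  rw [hcap _ (le_max_right _ _)] at h1
  rwa [h1] at hj

/-- The set of vertices queried against the adversary is the final set for all capacities that
extend the adversary's ones. -/
theorem endsWith_iff [DecidableEq V] (N : Network V) (A : Algo V) {J : ℕ} (hJ : A (adv N A J) = none)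
    {g : Sym2 V → ℝ} (hg : ∀ e, 1 ≤ g e) (S : Finset V) :
    EndsWith N A (cap ((adv N A J).map Prod.fst) g) S ↔
      S = ((adv N A J).map Prod.fst).toFinset := by
  have hh := hist_eq_adv N A hg J
  have stable : ∀ i, A (hist N A (cap ((adv N A J).map Prod.fst) g) i) = none → ∀ k, i ≤ k →
      hist N A (cap ((adv N A J).map Prod.fst) g) k =
        hist N A (cap ((adv N A J).map Prod.fst) g) i := by
    intro i hi k hk
    induction k, hk using Nat.le_induction with
    | base => rfl
    | succ k _ ih => rw [hist, ih, hi]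
  constructor
  · rintro ⟨j, hj, rfl⟩
    rcases le_total j J with h | h
    · rw [← stable j hj J h, hh J le_rfl]
    · have := stable J (by rw [hh J le_rfl]; exact hJ) j h
      rw [this, hh J le_rfl]
  · rintro rfl
    exact ⟨J, by rw [hh J le_rfl]; exact hJ, by rw [hh J le_rfl]⟩

/-- All revealed edges are at queried vertices. -/
theorem revealed_cap (N : Network V) (q : List V) {g : Sym2 V → ℝ} (hg : ∀ e, 1 ≤ g e)
    {S : Finset V} (hS : ∀ v ∈ S, v ∈ q) :
    ∀ e ∈ revealed N (cap q g) S, e ∈ N.graph.edgeSet ∧ ∃ v ∈ q, v ∈ e := by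
  rintro e ⟨s, hs, t, w, -, hb⟩
  refine ⟨Walk.edges_subset_edgeSet w hb.1, ?_⟩
  by_contra hcon
  push Not at hcon
  have h1 := cap_of_not_mem hcon g
  obtain ⟨e₁, he₁, hs₁⟩ := first_edge hb.1
  obtain ⟨i, -, hi⟩ := cap_of_mem (hS s hs) g hs₁
  have h2 : e₁ ≠ e := by
    rintro rfl
    exact hcon s (hS s hs) hs₁
  have h3 := hb.2 e₁ he₁ h2
  rw [h1, hi] at h3
  have := hg e
  have := tau_lt_one i
  linarith

end Pool.Agent.Q331.Vant
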