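import Pool.Agent.Q331.Vant.Plane

/-!
# Counting
-/

open SimpleGraph Finset

namespace Pool.Agent.Q331.Vant

variable {K : Type} [Field K] [Fintype K] [DecidableEq K]

/-- The points that are spoiled for the direction `m`. -/
def bad (S : Finset (Pl K)) (m : K) : Finset (K × K) :=
  univ.filter fun P => Sum.inl P ∈ S ∨ Sum.inr (lineOf m P) ∈ S

theorem sum_bad (S : Finset (Pl K)) : ∑ m, (bad S m).card ≤ S.card * Fintype.card K := by
  have h1 : ∑ m, (bad S m).card = ((univ : Finset (K × (K × K))).filter
      fun x => Sum.inl x.2 ∈ S ∨ Sum.inr (lineOf x.1 x.2) ∈ S).card := by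
    rw [Finset.card_filter, ← Finset.univ_product_univ, Finset.sum_product]
    refine Finset.sum_congr rfl fun m _ => ?_
    rw [bad, Finset.card_filter]
  rw [h1]
  have h2 : S.card * Fintype.card K = (S ×ˢ (univ : Finset K)).card := by
    rw [Finset.card_product, Finset.card_univ]
  rw [h2]
  apply Finset.card_le_card_of_injOn
    (fun x : K × (K × K) => if Sum.inl x.2 ∈ S then (Sum.inl x.2, x.1)
      else (Sum.inr (lineOf x.1 x.2), x.2.1))
  · intro x hx
    have hx' := (Finset.mem_filter.1 hx).2
    by_cases h : Sum.inl x.2 ∈ S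
    · simp [h]
    · rcases hx' with h3 | h3
      · exact absurd h3 h
      · simp [h, h3]
  · intro x hx y hy hxy
    simp only at hxy
    split_ifs at hxy with h3 h4 h4
    · simp only [Prod.mk.injEq, Sum.inl.injEq] at hxy
      exact Prod.ext hxy.2 hxy.1
    · simp at hxy
    · simp at hxy
    · simp only [Prod.mk.injEq, Sum.inr.injEq, lineOf] at hxy
      obtain ⟨⟨h5, h6⟩, h7⟩ := hxy
      refine Prod.ext h5 (Prod.ext h7 ?_)
      rw [h5, h7] at h6
      linear_combination h6

theorem exists_good (S : Finset (Pl K)) : ∃ m, (bad S m).card ≤ S.card := by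
  have h := sum_bad S
  by_contra hcon
  push Not at hcon
  have h2 : ∑ _m : K, (S.card + 1) ≤ ∑ m, (bad S m).card := Finset.sum_le_sum fun m _ => hcon m
  rw [Finset.sum_const, Finset.card_univ, smul_eq_mul] at h2
  have h3 : 0 < Fintype.card K := Fintype.card_pos
  nlinarith

open Classical in
/-- The capacities of the unseen edges. -/
noncomputable def gval (m : K) (e : Sym2 (Pl K)) : ℝ := if ∃ b, Sum.inr (m, b) ∈ e then 3 else 2

theorem gval_ge (m : K) (e : Sym2 (Pl K)) : 1 ≤ gval m e := by
  unfold gval; split_ifs <;> norm_num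

theorem gval_self (m : K) (P : K × K) : gval m (ed m P) = 3 := by
  unfold gval
  rw [if_pos ⟨P.2 - m * P.1, by simp [ed, lineOf]⟩]

theorem gval_other {m m' : K} (h : m ≠ m') (P : K × K) : gval m (ed m' P) = 2 := by
  unfold gval
  rw [if_neg]
  rintro ⟨b, hb⟩
  simp only [ed, lineOf, Sym2.mem_iff, reduceCtorEq, Sum.inr.injEq, Prod.mk.injEq, false_or] at hb
  exact h hb.1

variable {n : ℕ} {ix : Sym2 (Pl K) → ℕ}

theorem opt_ge (hinj : Function.Injective ix) (hix : ∀ e, ix e < n) (q : List (Pl K)) {m : K}
    (hm : (bad q.toFinset m).card ≤ q.toFinset.card) :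
    Fintype.card K ^ 3 ≤ OPT (net K n ix hinj hix) (cap q (gval m)) (Fintype.card K) +
      (Fintype.card K - 1) * q.toFinset.card := by
  classical
  set S : Finset (Pl K) := univ.image fun b : K => Sum.inr (m, b) with hS
  have hScard : S.card = Fintype.card K := by
    rw [hS, Finset.card_image_of_injective, Finset.card_univ]
    intro b b' h
    simpa using h
  have hmem : ∀ P, Sum.inr (lineOf m P) ∈ S := by
    intro P
    rw [hS, Finset.mem_image]
    exact ⟨_, Finset.mem_univ _, rfl⟩
  set T : Finset (K × (K × K)) := univ \ ((univ.erase m) ×ˢ bad q.toFinset m) with hT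
  have hTcard : Fintype.card K ^ 3 ≤ T.card + (Fintype.card K - 1) * q.toFinset.card := by
    have h1 : T.card + ((univ.erase m) ×ˢ bad q.toFinset m).card = Fintype.card K ^ 3 := by
      rw [hT, Finset.card_sdiff_add_card_eq_card (Finset.subset_univ _), Finset.card_univ,
        Fintype.card_prod, Fintype.card_prod]
      ring
    rw [Finset.card_product, Finset.card_erase_of_mem (Finset.mem_univ m), Finset.card_univ] at h1
    have h2 : (Fintype.card K - 1) * (bad q.toFinset m).card ≤
        (Fintype.card K - 1) * q.toFinset.card := Nat.mul_le_mul_left _ hm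
    omega
  have hsub : ((T.image fun x => ed x.1 x.2 : Finset (Sym2 (Pl K))) : Set (Sym2 (Pl K))) ⊆
      revealed (net K n ix hinj hix) (cap q (gval m)) S := by
    intro e he
    rw [Finset.mem_coe, Finset.mem_image] at he
    obtain ⟨⟨m', P⟩, hx, rfl⟩ := he
    simp only
    rw [hT, Finset.mem_sdiff, Finset.mem_product] at hx
    by_cases hmm : m' = m
    · subst hmm
      exact revealed_source hinj hix _ (hmem P)
    · have hb : P ∉ bad q.toFinset m := by
        intro hb
        exact hx.2 ⟨by simp [hmm], hb⟩
      rw [bad, Finset.mem_filter] at hb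
      push Not at hb
      obtain ⟨h1, h2⟩ := hb (Finset.mem_univ _)
      rw [List.mem_toFinset] at h1 h2
      refine revealed_far hinj hix (hmem P) (Ne.symm hmm) ?_
      have e1 : cap q (gval m) (ed m P) = 3 := by
        rw [cap_of_not_mem, gval_self]
        intro v hv hve
        rw [ed, Sym2.mem_iff] at hve
        rcases hve with rfl | rfl
        · exact h1 hv
        · exact h2 hv
      have e2 : cap q (gval m) (ed m' P) < 3 := by
        by_cases h : ∃ v ∈ q, v ∈ ed m' P
        · obtain ⟨v, hv, hve⟩ := h
          obtain ⟨i, -, hi⟩ := cap_of_mem hv (gval m) hve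
          rw [hi]
          have := tau_lt_one i
          linarith
        · push Not at h
          rw [cap_of_not_mem h, gval_other (Ne.symm hmm)]
          norm_num
      rw [e1]
      exact e2
  have h3 : T.card ≤ (revealed (net K n ix hinj hix) (cap q (gval m)) S).ncard := by
    rw [← Finset.card_image_of_injective T (f := fun x : K × (K × K) => ed x.1 x.2)
      (fun x y h => Prod.ext (ed_inj h).1 (ed_inj h).2), ← Set.ncard_coe_finset]
    exact Set.ncard_le_ncard hsub (Set.toFinite _)
  have h4 : (revealed (net K n ix hinj hix) (cap q (gval m)) S).ncard ≤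
      OPT (net K n ix hinj hix) (cap q (gval m)) (Fintype.card K) := by
    unfold OPT
    exact Finset.le_sup (f := fun S => (revealed (net K n ix hinj hix) (cap q (gval m)) S).ncard)
      (Finset.mem_powersetCard.2 ⟨Finset.subset_univ _, hScard⟩)
  omega

theorem revealed_le (hinj : Function.Injective ix) (hix : ∀ e, ix e < n) (q : List (Pl K)) (m : K) :
    (revealed (net K n ix hinj hix) (cap q (gval m)) q.toFinset).ncard ≤
      q.toFinset.card * Fintype.card K := by
  classical
  have hsub : revealed (net K n ix hinj hix) (cap q (gval m)) q.toFinset ⊆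
      (((q.toFinset ×ˢ (univ : Finset K)).image fun x => edAt x.1 x.2 : Finset (Sym2 (Pl K))) :
        Set (Sym2 (Pl K))) := by
    intro e he
    obtain ⟨h1, v, hv, hve⟩ := revealed_cap (net K n ix hinj hix) q (gval_ge m)
      (S := q.toFinset) (fun v hv => List.mem_toFinset.1 hv) e he
    obtain ⟨a, ha⟩ := exists_edAt h1 hve
    rw [Finset.mem_coe, Finset.mem_image]
    exact ⟨(v, a), by simp [hv], ha.symm⟩
  calc (revealed (net K n ix hinj hix) (cap q (gval m)) q.toFinset).ncard
      ≤ (((q.toFinset ×ˢ (univ : Finset K)).image fun x => edAt x.1 x.2 :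
          Finset (Sym2 (Pl K))) : Set (Sym2 (Pl K))).ncard :=
        Set.ncard_le_ncard hsub (Set.toFinite _)
    _ = ((q.toFinset ×ˢ (univ : Finset K)).image fun x => edAt x.1 x.2).card :=
        Set.ncard_coe_finset _
    _ ≤ (q.toFinset ×ˢ (univ : Finset K)).card := Finset.card_image_le
    _ = q.toFinset.card * Fintype.card K := by rw [Finset.card_product, Finset.card_univ]

end Pool.Agent.Q331.Vant
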