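import Mathlib

/-!
# Vantage points and bottleneck edges: definitions
-/

open SimpleGraph

namespace Pool.Agent.Q331.Vant

variable {V : Type}

/-- The length of a walk for the edge lengths `len`. -/
def wlen {G : SimpleGraph V} (len : Sym2 V → ℝ) {s t : V} (w : G.Walk s t) : ℝ :=
  (w.edges.map len).sum

/-- `w` is a shortest walk from `s` to `t`. -/
def IsShortest {G : SimpleGraph V} (len : Sym2 V → ℝ) {s t : V} (w : G.Walk s t) : Prop :=
  ∀ w' : G.Walk s t, wlen len w ≤ wlen len w'

/-- An undirected graph with positive edge lengths such that any two vertices of the same component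
are joined by a unique shortest path. -/
structure Network (V : Type) where
  graph : SimpleGraph V
  len : Sym2 V → ℝ
  len_pos : ∀ e ∈ graph.edgeSet, 0 < len e
  unique : ∀ s t, graph.Reachable s t → ∃! w : graph.Walk s t, IsShortest len w

/-- `e` is a bottleneck edge of the walk `w`: its capacity is less than the capacities of all other
edges of `w`. -/
def IsBottleneck {G : SimpleGraph V} (c : Sym2 V → ℝ) {s t : V} (w : G.Walk s t) (e : Sym2 V) :
    Prop :=
  e ∈ w.edges ∧ ∀ e' ∈ w.edges, e' ≠ e → c e < c e'

/-- `R(S)`: the bottleneck edges of the shortest paths `P(s, t)` with `s ∈ S`. -/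
def revealed (N : Network V) (c : Sym2 V → ℝ) (S : Finset V) : Set (Sym2 V) :=
  {e | ∃ s ∈ S, ∃ t, ∃ w : N.graph.Walk s t, IsShortest N.len w ∧ IsBottleneck c w e}

/-- `OPT(G, c, k)`: the largest number of edges revealed by `k` vertices. -/
noncomputable def OPT [Fintype V] (N : Network V) (c : Sym2 V → ℝ) (k : ℕ) : ℕ :=
  (Finset.univ.powersetCard k).sup fun S => (revealed N c S).ncard

/-- What an algorithm learns from the vantage point `s`: for every `t` the bottleneck edge of
`P(s, t)`, if there is one, together with its capacity. -/
def answer (N : Network V) (c : Sym2 V → ℝ) (s : V) : V → Set (Sym2 V × ℝ) := fun t =>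
  {x | ∃ w : N.graph.Walk s t, IsShortest N.len w ∧ IsBottleneck c w x.1 ∧ x.2 = c x.1}

/-- A deterministic adaptive algorithm for a given network and a given `k`: a map from the list of
all vantage points chosen so far and what was learned from them to the next vantage point, or to
`none` if it stops. -/
abbrev Algo (V : Type) : Type := List (V × (V → Set (Sym2 V × ℝ))) → Option V

/-- The history of the algorithm `A` after `j` steps, when the capacities are `c`. -/
noncomputable def hist (N : Network V) (A : Algo V) (c : Sym2 V → ℝ) :
    ℕ → List (V × (V → Set (Sym2 V × ℝ)))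
  | 0 => []
  | j + 1 =>
    match A (hist N A c j) with
    | none => hist N A c j
    | some v => hist N A c j ++ [(v, answer N c v)]

/-- When the capacities are `c`, the algorithm `A` stops, with the set `S` of vantage points. -/
def EndsWith [DecidableEq V] (N : Network V) (A : Algo V) (c : Sym2 V → ℝ) (S : Finset V) : Prop :=
  ∃ j, A (hist N A c j) = none ∧ S = ((hist N A c j).map Prod.fst).toFinset

end Pool.Agent.Q331.Vant
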