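import Pool.Agent.Q331.Vant.Unique
import Pool.Agent.Q331.Vant.Adversary

/-!
# The incidence graph of an affine plane
-/

open SimpleGraph

namespace Pool.Agent.Q331.Vant

/-- Points `(x, y)` and lines `y = m x + b` of the affine plane over `K`. -/
abbrev Pl (K : Type) : Type := (K × K) ⊕ (K × K)

variable {K : Type} [Field K]

/-- The point `P` lies on the line `l`. -/
def Inc (P l : K × K) : Prop := P.2 = l.1 * P.1 + l.2

/-- Adjacency in the incidence graph. -/
def adjPl : Pl K → Pl K → Prop
  | Sum.inl P, Sum.inr l => Inc P l
  | Sum.inr l, Sum.inl P => Inc P l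
  | _, _ => False

/-- The incidence graph. -/
def plane (K : Type) [Field K] : SimpleGraph (Pl K) where
  Adj := adjPl
  symm := ⟨by
    rintro (P | l) (Q | m) h
    · exact h
    · exact h
    · exact h
    · exact h⟩
  loopless := ⟨by
    rintro (P | l) h
    · exact h
    · exact h⟩

theorem adj_lr {P l : K × K} : (plane K).Adj (Sum.inl P) (Sum.inr l) ↔ Inc P l := Iff.rfl
theorem adj_rl {P l : K × K} : (plane K).Adj (Sum.inr l) (Sum.inl P) ↔ Inc P l := Iff.rfl
theorem adj_ll {P Q : K × K} : ¬ (plane K).Adj (Sum.inl P) (Sum.inl Q) := fun h => h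
theorem adj_rr {l m : K × K} : ¬ (plane K).Adj (Sum.inr l) (Sum.inr m) := fun h => h

/-- The line of slope `m` through `P`. -/
def lineOf (m : K) (P : K × K) : K × K := (m, P.2 - m * P.1)

theorem inc_lineOf (m : K) (P : K × K) : Inc P (lineOf m P) := by
  simp [Inc, lineOf]

/-- The edge from `P` to the line of slope `m` through `P`. -/
def ed (m : K) (P : K × K) : Sym2 (Pl K) := s(Sum.inl P, Sum.inr (lineOf m P))

theorem ed_inj {m m' : K} {P P' : K × K} (h : ed m P = ed m' P') : m = m' ∧ P = P' := by
  unfold ed at h
  rw [Sym2.eq_iff] at h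
  rcases h with ⟨h1, h2⟩ | ⟨h1, h2⟩
  · have h3 := Sum.inl.inj h1
    have h4 := Sum.inr.inj h2
    subst h3
    exact ⟨congrArg Prod.fst h4, rfl⟩
  · exact absurd h1 (by simp)

/-- The edges at the vertex `v`. -/
def edAt (v : Pl K) (a : K) : Sym2 (Pl K) :=
  match v with
  | Sum.inl P => ed a P
  | Sum.inr l => ed l.1 (a, l.1 * a + l.2)

theorem exists_edAt {e : Sym2 (Pl K)} (he : e ∈ (plane K).edgeSet) {v : Pl K} (hv : v ∈ e) :
    ∃ a, e = edAt v a := by
  obtain ⟨w, rfl⟩ := Sym2.mem_iff_exists.1 hv
  rw [mem_edgeSet] at he
  rcases v with P | l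
  · rcases w with Q | m
    · exact absurd he adj_ll
    · refine ⟨m.1, ?_⟩
      have : Inc P m := he
      simp only [edAt, ed, lineOf]
      have h2 : m = (m.1, P.2 - m.1 * P.1) := by
        ext
        · rfl
        · simp only [Inc] at this
          rw [this]; ring
      rw [← h2]
  · rcases w with Q | m
    · refine ⟨Q.1, ?_⟩
      have h0 : Inc Q l := he
      simp only [edAt, ed, lineOf]
      simp only [Inc] at h0
      rw [Sym2.eq_swap]
      have h1 : Q = (Q.1, l.1 * Q.1 + l.2) := by
        ext
        · rfl
        · exact h0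
      have h2 : l = (l.1, l.1 * Q.1 + l.2 - l.1 * Q.1) := by
        ext
        · rfl
        · simp
      rw [← h1, ← h2]
    · exact absurd he adj_rr

variable {n : ℕ} {ix : Sym2 (Pl K) → ℕ}

/-- The network. -/
noncomputable def net (K : Type) [Field K] (n : ℕ) (ix : Sym2 (Pl K) → ℕ)
    (hinj : Function.Injective ix) (hix : ∀ e, ix e < n) : Network (Pl K) where
  graph := plane K
  len := ln n ix
  len_pos := fun e _ => ln_pos n ix e
  unique := fun s t h => unique_shortest hinj hix s t h

theorem ed_mem_edgeSet (m : K) (P : K × K) : ed m P ∈ (plane K).edgeSet := by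
  rw [ed, mem_edgeSet]
  exact inc_lineOf m P

/-- Edges at a source are revealed. -/
theorem revealed_source (hinj : Function.Injective ix) (hix : ∀ e, ix e < n)
    (c : Sym2 (Pl K) → ℝ) {S : Finset (Pl K)} {m : K} {P : K × K} (hS : Sum.inr (lineOf m P) ∈ S) :
    ed m P ∈ revealed (net K n ix hinj hix) c S := by
  have hadj : (plane K).Adj (Sum.inr (lineOf m P)) (Sum.inl P) := inc_lineOf m P
  have key1 : IsShortest (ln n ix) (Walk.cons hadj Walk.nil) := by
    apply shortest_of_few hinj hix
    · simp
    · intro w' hw'
      rw [Walk.length_cons, Walk.length_nil]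
      cases w' with
      | @cons _ v _ h p =>
        rw [Walk.length_cons]
        by_contra hcon
        have h0 : p.length = 0 := by omega
        obtain rfl := Walk.eq_of_length_eq_zero h0
        have := Walk.eq_nil_iff_nil.2 (Walk.length_eq_zero_iff.1 h0)
        subst this
        exact hw' rfl
  have key2 : IsBottleneck c (Walk.cons hadj Walk.nil) (ed m P) := by
    refine ⟨?_, ?_⟩
    · simp [ed, Sym2.eq_swap]
    · intro e' he' hne
      simp only [Walk.edges_cons, Walk.edges_nil, List.mem_singleton] at he'
      exact absurd (by rw [he', ed, Sym2.eq_swap]) hne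
  exact ⟨Sum.inr (lineOf m P), hS, Sum.inl P, Walk.cons hadj Walk.nil, key1, key2⟩

/-- Edges at distance one from a source are revealed if they are cheaper. -/
theorem revealed_far (hinj : Function.Injective ix) (hix : ∀ e, ix e < n)
    {c : Sym2 (Pl K) → ℝ} {S : Finset (Pl K)} {m m' : K} {P : K × K}
    (hS : Sum.inr (lineOf m P) ∈ S) (hm : m ≠ m') (hc : c (ed m' P) < c (ed m P)) :
    ed m' P ∈ revealed (net K n ix hinj hix) c S := by
  have h1 : (plane K).Adj (Sum.inr (lineOf m P)) (Sum.inl P) := inc_lineOf m P
  have h2 : (plane K).Adj (Sum.inl P) (Sum.inr (lineOf m' P)) := inc_lineOf m' P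
  have hne : ed m P ≠ ed m' P := fun h => hm (ed_inj h).1
  have hne2 : (s(Sum.inr (lineOf m P), Sum.inl P) : Sym2 (Pl K)) ≠
      s(Sum.inl P, Sum.inr (lineOf m' P)) := by
    rw [Sym2.eq_swap]; exact hne
  have key1 : IsShortest (ln n ix) (Walk.cons h1 (Walk.cons h2 Walk.nil)) := by
    apply shortest_of_few hinj hix
    · simp only [Walk.edges_cons, Walk.edges_nil, List.nodup_cons, List.mem_singleton,
        List.not_mem_nil, not_false_eq_true, List.nodup_nil, and_true]
      exact hne2
    · intro w' hw'
      simp only [Walk.length_cons, Walk.length_nil]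
      cases w' with
      | nil => exact absurd rfl hm
      | @cons _ v _ h p =>
        rw [Walk.length_cons]
        by_contra hcon
        rcases v with Q | l
        · cases p with
          | @cons _ v _ h' p' =>
            rw [Walk.length_cons] at hcon
            have h0 : p'.length = 0 := by omega
            obtain rfl := Walk.eq_of_length_eq_zero h0
            have := Walk.eq_nil_iff_nil.2 (Walk.length_eq_zero_iff.1 h0)
            subst this
            apply hw'
            have i1 : Inc Q (lineOf m P) := h
            have i2 : Inc Q (lineOf m' P) := h'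
            have : Q = P := by
              simp only [Inc, lineOf] at i1 i2
              have e : (m - m') * (Q.1 - P.1) = 0 := by
                have : m * Q.1 + (P.2 - m * P.1) = m' * Q.1 + (P.2 - m' * P.1) := by
                  rw [← i1, ← i2]
                linear_combination this
              rcases mul_eq_zero.1 e with e | e
              · exact absurd (sub_eq_zero.1 e) hm
              · have e' := sub_eq_zero.1 e
                ext
                · exact e'
                · rw [i1, e']; ring
            subst this
            rfl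
        · exact absurd h adj_rr
  have key2 : IsBottleneck c (Walk.cons h1 (Walk.cons h2 Walk.nil)) (ed m' P) := by
    refine ⟨?_, ?_⟩
    · simp [ed]
    · intro e' he' hne'
      simp only [Walk.edges_cons, Walk.edges_nil, List.mem_cons, List.not_mem_nil, or_false] at he'
      rcases he' with he' | he'
      · rw [he', Sym2.eq_swap]; exact hc
      · exact absurd he' hne'
  exact ⟨Sum.inr (lineOf m P), hS, Sum.inr (lineOf m' P), Walk.cons h1 (Walk.cons h2 Walk.nil),
    key1, key2⟩

end Pool.Agent.Q331.Vant
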