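import Pool.Agent.Q331.Vant.Defs

/-!
# Edge lengths with unique shortest paths
-/

open SimpleGraph

namespace Pool.Agent.Q331.Vant

variable {V : Type} {G : SimpleGraph V}

/-- The length of an edge with index `ix e`. -/
noncomputable def ln (n : ℕ) (ix : Sym2 V → ℕ) (e : Sym2 V) : ℝ := 2 ^ n + 2 ^ ix e

/-- The same length as a natural number. -/
def lnN (n : ℕ) (ix : Sym2 V → ℕ) (e : Sym2 V) : ℕ := 2 ^ n + 2 ^ ix e

theorem ln_pos (n : ℕ) (ix : Sym2 V → ℕ) (e : Sym2 V) : 0 < ln n ix e := by
  unfold ln; positivity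

def wlenN (n : ℕ) (ix : Sym2 V → ℕ) {s t : V} (w : G.Walk s t) : ℕ :=
  (w.edges.map (lnN n ix)).sum

theorem wlen_eq (n : ℕ) (ix : Sym2 V → ℕ) {s t : V} (w : G.Walk s t) :
    wlen (ln n ix) w = (wlenN n ix w : ℝ) := by
  unfold wlen wlenN
  induction w.edges with
  | nil => simp
  | cons e l ih =>
    simp only [List.map_cons, List.sum_cons, ih]
    push_cast
    simp [ln, lnN]

theorem shortest_iff (n : ℕ) (ix : Sym2 V → ℕ) {s t : V} (w : G.Walk s t) :
    IsShortest (ln n ix) w ↔ ∀ w' : G.Walk s t, wlenN n ix w ≤ wlenN n ix w' := by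
  unfold IsShortest
  simp only [wlen_eq, Nat.cast_le]

theorem wlenN_ge (n : ℕ) (ix : Sym2 V → ℕ) {s t : V} (w : G.Walk s t) :
    w.length * 2 ^ n ≤ wlenN n ix w := by
  unfold wlenN
  rw [← Walk.length_edges]
  induction w.edges with
  | nil => simp
  | cons e l ih =>
    simp only [List.map_cons, List.sum_cons, List.length_cons, lnN]
    have : 0 < 2 ^ ix e := by positivity
    nlinarith

theorem sum_two_pow_lt {n : ℕ} {s : Finset ℕ} (h : ∀ i ∈ s, i < n) : ∑ i ∈ s, 2 ^ i < 2 ^ n := by
  have h1 : s ⊆ Finset.range n := fun i hi => Finset.mem_range.2 (h i hi)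
  calc ∑ i ∈ s, 2 ^ i ≤ ∑ i ∈ Finset.range n, 2 ^ i := Finset.sum_le_sum_of_subset h1
    _ < 2 ^ n := by
      rw [Nat.geomSum_eq (le_refl 2)]
      have : 0 < 2 ^ n := by positivity
      simp

theorem wlenN_eq {n : ℕ} {ix : Sym2 V → ℕ} (hinj : Function.Injective ix) {s t : V}
    {w : G.Walk s t} (hw : w.edges.Nodup) :
    wlenN n ix w = w.length * 2 ^ n + ∑ i ∈ (w.edges.map ix).toFinset, 2 ^ i := by
  unfold wlenN
  have hnd : (w.edges.map ix).Nodup := hw.map hinj
  rw [List.sum_toFinset _ hnd, ← Walk.length_edges]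
  induction w.edges with
  | nil => simp
  | cons e l ih =>
    simp only [List.map_cons, List.sum_cons, List.length_cons, lnN]
    rw [ih]
    ring

theorem wlenN_lt {n : ℕ} {ix : Sym2 V → ℕ} (hinj : Function.Injective ix) (hix : ∀ e, ix e < n)
    {s t : V} {w : G.Walk s t} (hw : w.edges.Nodup) :
    wlenN n ix w < (w.length + 1) * 2 ^ n := by
  rw [wlenN_eq hinj hw]
  have := sum_two_pow_lt (n := n) (s := (w.edges.map ix).toFinset) (by
    intro i hi
    rw [List.mem_toFinset, List.mem_map] at hi
    obtain ⟨e, -, rfl⟩ := hi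
    exact hix e)
  nlinarith

/-- A trail with fewer edges than every other walk is the unique shortest walk. -/
theorem shortest_of_few {n : ℕ} {ix : Sym2 V → ℕ} (hinj : Function.Injective ix)
    (hix : ∀ e, ix e < n) {s t : V} {w : G.Walk s t} (hw : w.edges.Nodup)
    (h : ∀ w' : G.Walk s t, w' ≠ w → w.length < w'.length) :
    IsShortest (ln n ix) w := by
  rw [shortest_iff]
  intro w'
  rcases eq_or_ne w' w with rfl | h1
  · exact le_rfl
  · have h2 := h w' h1
    have h3 := wlenN_lt hinj hix hw
    have h4 := wlenN_ge n ix w'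
    have h5 : (w.length + 1) * 2 ^ n ≤ w'.length * 2 ^ n := Nat.mul_le_mul_right _ h2
    omega

theorem isPath_of_shortest {n : ℕ} {ix : Sym2 V → ℕ} (hinj : Function.Injective ix)
    (hix : ∀ e, ix e < n) {s t : V} {w : G.Walk s t} (hw : IsShortest (ln n ix) w) :
    w.IsPath := by
  classical
  rw [shortest_iff] at hw
  have h1 := hw w.bypass
  have h2 : w.bypass.IsPath := w.bypass_isPath
  by_contra hcon
  have h3 : w.bypass.length < w.length := by
    by_contra h4
    have := w.bypass_eq_self_of_length_le_length_bypass (by omega)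
    rw [this] at h2
    exact hcon h2
  have h4 := wlenN_lt hinj hix (w := w.bypass) h2.isTrail.edges_nodup
  have h5 := wlenN_ge n ix w
  have h6 : (w.bypass.length + 1) * 2 ^ n ≤ w.length * 2 ^ n := Nat.mul_le_mul_right _ h3
  omega

/-- A path is determined by its ends and its set of edges. -/
theorem path_ext {s t : V} {w : G.Walk s t} (hw : w.IsPath) :
    ∀ {w' : G.Walk s t}, w'.IsPath → (∀ e, e ∈ w.edges ↔ e ∈ w'.edges) → w = w' := by
  induction w with
  | @nil u =>
    intro w' hw' h
    cases w' with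
    | nil => rfl
    | @cons _ v _ h1 p =>
      have := (h s(u, v)).2 (by simp)
      simp at this
  | @cons u v x h1 p ih =>
    intro w' hw' h
    rw [Walk.cons_isPath_iff] at hw
    cases w' with
    | nil =>
      have := (h s(u, v)).1 (by simp)
      simp at this
    | @cons _ v' _ h2 q =>
      rw [Walk.cons_isPath_iff] at hw'
      have h3 : s(u, v) ∈ (Walk.cons h2 q).edges := (h _).1 (by simp)
      rw [Walk.edges_cons, List.mem_cons] at h3
      have hv : v = v' := by
        rcases h3 with h3 | h3
        · have := Sym2.congr_right.1 h3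
          exact this
        · exact absurd (Walk.fst_mem_support_of_mem_edges q h3) hw'.2
      subst hv
      have : p = q := by
        apply ih hw.1 hw'.1
        intro e
        have he := h e
        simp only [Walk.edges_cons, List.mem_cons] at he
        constructor
        · intro hp
          rcases he.1 (Or.inr hp) with h4 | h4
          · subst h4
            exact absurd (Walk.fst_mem_support_of_mem_edges p hp) hw.2
          · exact h4
        · intro hq
          rcases he.2 (Or.inr hq) with h4 | h4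
          · subst h4
            exact absurd (Walk.fst_mem_support_of_mem_edges q hq) hw'.2
          · exact h4
      rw [this]

theorem unique_shortest {n : ℕ} {ix : Sym2 V → ℕ} (hinj : Function.Injective ix)
    (hix : ∀ e, ix e < n) (s t : V) (h : G.Reachable s t) :
    ∃! w : G.Walk s t, IsShortest (ln n ix) w := by
  classical
  obtain ⟨w0⟩ := h
  have : Nonempty (G.Walk s t) := ⟨w0⟩
  set w := Function.argmin (fun w : G.Walk s t => wlenN n ix w) with hw
  have h1 : IsShortest (ln n ix) w := by
    rw [shortest_iff]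
    intro w'
    exact Function.argmin_le (f := fun w : G.Walk s t => wlenN n ix w) w'
  refine ⟨w, h1, fun w' h2 => ?_⟩
  have p1 := isPath_of_shortest hinj hix h1
  have p2 := isPath_of_shortest hinj hix h2
  have e1 := wlenN_eq (n := n) hinj p1.isTrail.edges_nodup
  have e2 := wlenN_eq (n := n) hinj p2.isTrail.edges_nodup
  rw [shortest_iff] at h1 h2
  have h3 : wlenN n ix w = wlenN n ix w' := le_antisymm (h1 w') (h2 w)
  have b1 := sum_two_pow_lt (n := n) (s := (w.edges.map ix).toFinset) (by
    intro i hi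
    rw [List.mem_toFinset, List.mem_map] at hi
    obtain ⟨e, -, rfl⟩ := hi
    exact hix e)
  have b2 := sum_two_pow_lt (n := n) (s := (w'.edges.map ix).toFinset) (by
    intro i hi
    rw [List.mem_toFinset, List.mem_map] at hi
    obtain ⟨e, -, rfl⟩ := hi
    exact hix e)
  rw [e1, e2] at h3
  have h4 : ∑ i ∈ (w.edges.map ix).toFinset, 2 ^ i = ∑ i ∈ (w'.edges.map ix).toFinset, 2 ^ i := by
    have m1 := congrArg (· % 2 ^ n) h3
    simp only [Nat.mul_add_mod_self_right] at m1
    rwa [Nat.mod_eq_of_lt b1, Nat.mod_eq_of_lt b2] at m1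
  have h5 := Finset.geomSum_injective (le_refl 2) h4
  apply path_ext p2 p1
  intro e
  have h6 : ix e ∈ (w.edges.map ix).toFinset ↔ ix e ∈ (w'.edges.map ix).toFinset := by rw [h5]
  simp only [List.mem_toFinset, List.mem_map] at h6
  constructor
  · intro he
    obtain ⟨e', he', h7⟩ := h6.2 ⟨e, he, rfl⟩
    rwa [← hinj h7]
  · intro he
    obtain ⟨e', he', h7⟩ := h6.1 ⟨e, he, rfl⟩
    rwa [← hinj h7]

/-- Every finite graph has edge lengths with unique shortest paths. -/
theorem exists_index (V : Type) [Finite V] : ∃ (n : ℕ) (ix : Sym2 V → ℕ), Function.Injective ix ∧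
    ∀ e, ix e < n := by
  classical
  obtain ⟨n, ⟨f⟩⟩ := Finite.exists_equiv_fin (Sym2 V)
  exact ⟨n, fun e => (f e : ℕ), fun a b h => f.injective (Fin.ext h), fun e => (f e).2⟩

end Pool.Agent.Q331.Vant
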